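import Pool.Agent.Helper85.KP.StE

set_option autoImplicit false

namespace Pool.Agent.Helper19.KP

open MeasureTheory Filter Pool.Agent.Helper52.KP Pool.Agent.Helper85.KP
open scoped ContDiff ComplexOrder Topology

theorem ein_gamma (b : ℝ) (hb : 0 < b) (k : ℕ) :
    ∫⁻ σ in Set.Ioi (0 : ℝ), ENNReal.ofReal (σ ^ k * Real.exp (-σ)) *
      ENNReal.ofReal (b * σ ^ (b - 1)) = ENNReal.ofReal (b * Real.Gamma (b + k)) := by
  have hbk : 0 < b + k := by positivity
  have h1 : ∫⁻ σ in Set.Ioi (0 : ℝ), ENNReal.ofReal (σ ^ k * Real.exp (-σ)) *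
      ENNReal.ofReal (b * σ ^ (b - 1)) =
      ∫⁻ σ in Set.Ioi (0 : ℝ), ENNReal.ofReal (b * (Real.exp (-σ) * σ ^ (b + k - 1))) := by
    refine setLIntegral_congr_fun measurableSet_Ioi fun σ hσ => ?_
    have hσ' : 0 < σ := hσ
    rw [← ENNReal.ofReal_mul (by positivity)]
    congr 1
    have : σ ^ (b + k - 1) = σ ^ k * σ ^ (b - 1) := by
      rw [← Real.rpow_natCast, ← Real.rpow_add hσ']
      congr 1
      ring
    rw [this]
    ring
  have hint := Real.GammaIntegral_convergent hbk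
  rw [h1, ← ofReal_integral_eq_lintegral_ofReal (hint.const_mul b)]
  · rw [integral_const_mul, Real.Gamma_eq_integral hbk]
  · rw [EventuallyLE, ae_restrict_iff' measurableSet_Ioi]
    refine Eventually.of_forall fun σ hσ => ?_
    have hσ' : 0 < σ := hσ
    show (0 : ℝ) ≤ b * (Real.exp (-σ) * σ ^ (b + k - 1))
    positivity

/-- the density of the comparison -/
noncomputable def einW (C : Cone) (d : ℝ) (ψ : (Fin C.m → ℂ) → ℝ) (z : Fin C.m → ℂ) : ℝ :=
  (ψ z / C.u z ^ d) ^ (-(C.m / d : ℝ))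

theorem ein_open (C : Cone) : IsOpen C.U := by
  have hc : Continuous fun z => ev C.Δ z := MvPolynomial.continuous_eval C.Δ
  exact isOpen_ne.preimage hc

theorem ein_nu (C : Cone) (K : (Fin C.m → ℂ) → ENNReal) (hK : Measurable K) :
    ∫⁻ z in C.U, K z ∂C.nu = ∫⁻ z in C.U, ENNReal.ofReal (‖ev C.J z‖ ^ 2) * K z := by
  have hJm : Measurable fun z => ENNReal.ofReal (‖ev C.J z‖ ^ 2) := by
    have hc : Continuous fun z => ev C.J z := MvPolynomial.continuous_eval C.J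
    exact ENNReal.measurable_ofReal.comp (hc.norm.pow 2).measurable
  unfold Cone.nu
  rw [restrict_withDensity (ein_open C).measurableSet,
    lintegral_withDensity_eq_lintegral_mul _ hJm hK]
  rfl

theorem ein_gen (hSCA : StSCA) (hRAD : StRAD) (C : Cone) (hC : Good C) (d : ℝ) (hd : 0 < d)
    (ψ : (Fin C.m → ℂ) → ℝ) (hψ : Measurable ψ)
    (hψ1 : ∀ z ∈ C.U, 0 < ψ z ∧ ∀ c : ℂ, c ≠ 0 → ψ (scl C.w c z) = ‖c‖ ^ d * ψ z)
    (hfin : C.nu {z | z ∈ C.U ∧ ψ z < 1} ≠ ⊤)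
    (x : (Fin C.m → ℂ) → ℝ) (hx : Measurable x) (B : ℝ) (hxB : ∀ z ∈ C.U, 0 ≤ x z ∧ x z ≤ B)
    (hx0 : ∀ z ∈ C.U, ∀ c : ℂ, c ≠ 0 → x (scl C.w c z) = x z) (k : ℕ) :
    IntegrableOn (fun z => x z * einW C d ψ z) (S1 C) C.nu ∧
    IntegrableOn (fun z => ψ z ^ k * x z * Real.exp (-ψ z) * ‖ev C.J z‖ ^ 2) C.U ∧
    ∫ z in C.U, ψ z ^ k * x z * Real.exp (-ψ z) * ‖ev C.J z‖ ^ 2 =
      (C.m / d : ℝ) * Real.Gamma (C.m / d + k) * ∫ z in S1 C, x z * einW C d ψ z ∂C.nu := by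
  have hm : 0 < C.m := by
    have := hC.hm
    have := hC.hn
    omega
  have hmR : (0 : ℝ) < C.m := by exact_mod_cast hm
  have hUm : MeasurableSet C.U := (ein_open C).measurableSet
  have upos : ∀ z ∈ C.U, 0 < C.u z := by
    intro z hz
    obtain ⟨a, b, ha, hab⟩ := hC.ubd
    exact lt_of_lt_of_le (mul_pos ha (hC.Xpos z hz)) (hab z hz).1
  have hb : 0 < (C.m / d : ℝ) := div_pos hmR hd
  have hg : Measurable fun z => ENNReal.ofReal (x z) := ENNReal.measurable_ofReal.comp hx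
  classical
  let v : (Fin C.m → ℂ) → ℝ := C.U.piecewise C.u (fun _ => 1)
  have hvm : Measurable v := hC.usm.continuousOn.measurable_piecewise continuousOn_const hUm
  have hv : ∀ z ∈ C.U, v z = C.u z := fun z hz => Set.piecewise_eq_of_mem _ _ _ hz
  have hS1 : MeasurableSet (S1 C) := by
    have : S1 C = C.U ∩ {z | v z < 1} := by
      ext z
      constructor
      · rintro ⟨h1, h2⟩
        exact ⟨h1, by rw [Set.mem_ofPred_eq, hv z h1]; exact h2⟩
      · rintro ⟨h1, h2⟩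
        rw [Set.mem_ofPred_eq, hv z h1] at h2
        exact ⟨h1, h2⟩
    rw [this]
    exact hUm.inter (measurableSet_lt hvm measurable_const)
  have hSU : S1 C ⊆ C.U := fun z hz => hz.1
  have hWpos : ∀ z ∈ C.U, 0 < einW C d ψ z := fun z hz =>
    Real.rpow_pos_of_pos (div_pos (hψ1 z hz).1 (Real.rpow_pos_of_pos (upos z hz) d)) _
  -- finiteness
  have hgfin : ∫⁻ z in {z | z ∈ C.U ∧ ψ z < 1}, ENNReal.ofReal (x z) ∂C.nu ≠ ⊤ := by
    have hms : MeasurableSet {z | z ∈ C.U ∧ ψ z < 1} :=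
      hUm.inter (measurableSet_lt hψ measurable_const)
    refine ne_top_of_le_ne_top (ENNReal.mul_ne_top (ENNReal.ofReal_ne_top (r := B)) hfin) ?_
    rw [← setLIntegral_const]
    refine setLIntegral_mono' hms fun z hz => ?_
    exact ENNReal.ofReal_le_ofReal (hxB z hz.1).2
  have hΦ : Measurable fun σ : ℝ => ENNReal.ofReal (σ ^ k * Real.exp (-σ)) := by fun_prop
  have sca := hSCA C hC d 0 hd (by rw [add_zero]; exact hmR) ψ (fun z => ENNReal.ofReal (x z)) hψ hg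
    (fun z hz => ⟨(hψ1 z hz).1, fun c hc => ⟨(hψ1 z hz).2 c hc, by
      rw [hx0 z hz c hc, Real.rpow_zero, ENNReal.ofReal_one, one_mul]⟩⟩) hgfin
    (fun σ => ENNReal.ofReal (σ ^ k * Real.exp (-σ))) hΦ
  rw [add_zero, ein_gamma _ hb k] at sca
  have rad := hRAD C hC d hd ψ (fun z => ENNReal.ofReal (x z)) hψ hg
    (fun z hz => ⟨(hψ1 z hz).1, fun c hc => ⟨(hψ1 z hz).2 c hc, by rw [hx0 z hz c hc]⟩⟩)
  have hT : ∫⁻ z in {z | z ∈ C.U ∧ ψ z < 1}, ENNReal.ofReal (x z) ∂C.nu =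
      ∫⁻ z in S1 C, ENNReal.ofReal (x z * einW C d ψ z) ∂C.nu := by
    rw [rad]
    refine setLIntegral_congr_fun hS1 fun z hz => ?_
    exact (ENNReal.ofReal_mul (hxB z hz.1).1).symm
  -- integrability on `S1`
  have hnn1 : 0 ≤ᵐ[C.nu.restrict (S1 C)] fun z => x z * einW C d ψ z := by
    rw [EventuallyLE, ae_restrict_iff' hS1]
    exact Eventually.of_forall fun z hz => mul_nonneg (hxB z hz.1).1 (hWpos z hz.1).le
  have hint1 : IntegrableOn (fun z => x z * einW C d ψ z) (S1 C) C.nu := by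
    refine ⟨?_, ?_⟩
    · have hm2 : Measurable fun z => x z * (ψ z / v z ^ d) ^ (-(C.m / d : ℝ)) := by fun_prop
      refine hm2.aestronglyMeasurable.congr ?_
      rw [EventuallyEq, ae_restrict_iff' hS1]
      refine Eventually.of_forall fun z hz => ?_
      show x z * (ψ z / v z ^ d) ^ (-(C.m / d : ℝ)) = x z * einW C d ψ z
      rw [hv z hz.1]
      rfl
    · rw [hasFiniteIntegral_iff_ofReal hnn1, ← hT]
      exact lt_top_iff_ne_top.mpr hgfin
  have hofI : ENNReal.ofReal (∫ z in S1 C, x z * einW C d ψ z ∂C.nu) =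
      ∫⁻ z in S1 C, ENNReal.ofReal (x z * einW C d ψ z) ∂C.nu :=
    ofReal_integral_eq_lintegral_ofReal hint1 hnn1
  have hInn : 0 ≤ ∫ z in S1 C, x z * einW C d ψ z ∂C.nu := integral_nonneg_of_ae hnn1
  -- the integral over `U`
  have hnn2 : 0 ≤ᵐ[volume.restrict C.U]
      fun z => ψ z ^ k * x z * Real.exp (-ψ z) * ‖ev C.J z‖ ^ 2 := by
    rw [EventuallyLE, ae_restrict_iff' hUm]
    refine Eventually.of_forall fun z hz => ?_
    have h1 := (hψ1 z hz).1
    have h2 := (hxB z hz).1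
    show (0 : ℝ) ≤ ψ z ^ k * x z * Real.exp (-ψ z) * ‖ev C.J z‖ ^ 2
    positivity
  have hJc : Continuous fun z => ev C.J z := MvPolynomial.continuous_eval C.J
  have hmeas2 : Measurable fun z => ψ z ^ k * x z * Real.exp (-ψ z) * ‖ev C.J z‖ ^ 2 :=
    (((hψ.pow_const k).mul hx).mul hψ.neg.exp).mul (hJc.norm.pow 2).measurable
  have hlint : ∫⁻ z in C.U, ENNReal.ofReal (ψ z ^ k * x z * Real.exp (-ψ z) * ‖ev C.J z‖ ^ 2) =
      ENNReal.ofReal ((C.m / d : ℝ) * Real.Gamma (C.m / d + k) *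
        ∫ z in S1 C, x z * einW C d ψ z ∂C.nu) := by
    have hG : 0 ≤ (C.m / d : ℝ) * Real.Gamma (C.m / d + k) :=
      (mul_pos hb (Real.Gamma_pos_of_pos (by positivity))).le
    rw [ENNReal.ofReal_mul hG, hofI, ← hT, ← sca,
      ein_nu C (fun z => ENNReal.ofReal (ψ z ^ k * Real.exp (-ψ z)) * ENNReal.ofReal (x z))
        ((hΦ.comp hψ).mul hg)]
    refine setLIntegral_congr_fun hUm fun z hz => ?_
    have h1 := (hψ1 z hz).1
    have h2 := (hxB z hz).1
    show ENNReal.ofReal _ = ENNReal.ofReal (‖ev C.J z‖ ^ 2) *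
      (ENNReal.ofReal (ψ z ^ k * Real.exp (-ψ z)) * ENNReal.ofReal (x z))
    rw [← ENNReal.ofReal_mul (by positivity), ← ENNReal.ofReal_mul (by positivity)]
    congr 1
    ring
  have hint2 : IntegrableOn (fun z => ψ z ^ k * x z * Real.exp (-ψ z) * ‖ev C.J z‖ ^ 2) C.U := by
    refine ⟨hmeas2.aestronglyMeasurable, ?_⟩
    rw [hasFiniteIntegral_iff_ofReal hnn2, hlint]
    exact ENNReal.ofReal_lt_top
  refine ⟨hint1, hint2, ?_⟩
  have h3 := ofReal_integral_eq_lintegral_ofReal hint2 hnn2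
  rw [hlint] at h3
  have hG : 0 ≤ (C.m / d : ℝ) * Real.Gamma (C.m / d + k) *
      ∫ z in S1 C, x z * einW C d ψ z ∂C.nu :=
    mul_nonneg (mul_pos hb (Real.Gamma_pos_of_pos (by positivity))).le hInn
  exact (ENNReal.ofReal_eq_ofReal_iff (integral_nonneg_of_ae hnn2) hG).mp h3

theorem ein_fin (C : Cone) (P : (Fin C.m → ℂ) → ℝ) (hP : Measurable P)
    (hint : IntegrableOn (fun z => Real.exp (-P z) * ‖ev C.J z‖ ^ 2) C.U) (T : ℝ) :
    C.nu {z | z ∈ C.U ∧ P z < T} ≠ ⊤ := by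
  have hUm : MeasurableSet C.U := (ein_open C).measurableSet
  have hms : MeasurableSet {z | z ∈ C.U ∧ P z < T} :=
    hUm.inter (measurableSet_lt hP measurable_const)
  have hme : Measurable fun z => ENNReal.ofReal (Real.exp T * Real.exp (-P z)) :=
    ENNReal.measurable_ofReal.comp ((hP.neg.exp).const_mul _)
  have h1 : C.nu {z | z ∈ C.U ∧ P z < T} ≤
      ∫⁻ z in C.U, ENNReal.ofReal (Real.exp T * Real.exp (-P z)) ∂C.nu := by
    rw [← setLIntegral_one]
    refine le_trans (setLIntegral_mono' hms fun z hz => ?_)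
      (lintegral_mono_set (fun z hz => hz.1))
    rw [← ENNReal.ofReal_one, ← Real.exp_add]
    refine ENNReal.ofReal_le_ofReal (Real.one_le_exp ?_)
    linarith [hz.2]
  refine ne_top_of_le_ne_top ?_ h1
  rw [ein_nu C _ hme]
  have h2 : ∫⁻ z in C.U, ENNReal.ofReal (‖ev C.J z‖ ^ 2) *
      ENNReal.ofReal (Real.exp T * Real.exp (-P z)) =
      ∫⁻ z in C.U, ENNReal.ofReal (Real.exp T * (Real.exp (-P z) * ‖ev C.J z‖ ^ 2)) := by
    refine lintegral_congr fun z => ?_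
    rw [← ENNReal.ofReal_mul (by positivity)]
    congr 1
    ring
  rw [h2]
  have h3 := (hint.const_mul (Real.exp T)).hasFiniteIntegral
  rw [hasFiniteIntegral_iff_ofReal (Eventually.of_forall fun z => by
    show (0 : ℝ) ≤ Real.exp T * (Real.exp (-P z) * ‖ev C.J z‖ ^ 2)
    positivity)] at h3
  exact h3.ne

theorem hEIN (hSCA : StSCA) (hRAD : StRAD) (hDIF : StDIF) (hEPO : StEPO) : StEIN := by
  intro C hC D N hD s lam hspan t ht
  have hm : 0 < C.m := by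
    have := hC.hm
    have := hC.hn
    omega
  have hmR : (0 : ℝ) < C.m := by exact_mod_cast hm
  have hDR : (0 : ℝ) < D := by exact_mod_cast hD
  have hUm : MeasurableSet C.U := (ein_open C).measurableSet
  have upos : ∀ z ∈ C.U, 0 < C.u z := by
    intro z hz
    obtain ⟨a, b, ha, hab⟩ := hC.ubd
    exact lt_of_lt_of_le (mul_pos ha (hC.Xpos z hz)) (hab z hz).1
  have hK : 0 < KD C D := by
    unfold KD
    have := Real.pi_pos
    positivity
  -- bound of the jumps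
  let L : ℝ := ∑ j, (lam j : ℝ) + 1
  have hL : 0 < L := by positivity
  have hlam : ∀ j, (lam j : ℝ) ≤ L := by
    intro j
    have := Finset.single_le_sum (f := fun j => (lam j : ℝ)) (fun i _ => Nat.cast_nonneg _)
      (Finset.mem_univ j)
    show (lam j : ℝ) ≤ ∑ j, (lam j : ℝ) + 1
    linarith
  have epo := fun z hz => hEPO C hC D N hD s lam hspan L hL hlam z hz t ht
  obtain ⟨hZpos, hq, hdZ, hdI⟩ := hDIF C hC D N hD s lam hspan t
  -- measurability
  have hPn : ∀ n, Measurable (PPn n s lam t) := by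
    intro n
    unfold PPn
    refine Finset.measurable_fun_sum _ fun j _ => ?_
    have hc : Continuous fun z => ev (s j) z := MvPolynomial.continuous_eval (s j)
    exact ((hc.norm.pow 2).measurable).const_mul _
  have hPm : Measurable (PP s lam t) := by
    unfold PP
    refine Finset.measurable_fun_sum _ fun j _ => ?_
    have hc : Continuous fun z => ev (s j) z := MvPolynomial.continuous_eval (s j)
    exact ((hc.norm.pow 2).measurable).const_mul _
  have hF1m : Measurable (F1 s lam t) := (hPn 1).div hPm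
  have hF2m : Measurable (F2 s lam t) := ((hPn 2).div hPm).sub (hF1m.pow_const 2)
  have hpsm : Measurable (psi C D s lam t) := by
    unfold psi
    exact (hPm.div_const _).pow_const _
  -- integrability of `e^{-P}`
  have hexp : IntegrableOn (fun z => Real.exp (-PP s lam t z) * ‖ev C.J z‖ ^ 2) C.U := by
    have h := (hq 0).const_mul (1 / 2 : ℝ)
    refine h.congr (Eventually.of_forall fun z => ?_)
    show (1 / 2 : ℝ) * ((1 + C.sz z ^ 0) * Real.exp (-PP s lam t z) * ‖ev C.J z‖ ^ 2) = _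
    rw [pow_zero]
    ring
  have hP1 : ∀ z ∈ C.U, 0 < PP s lam t z ∧ ∀ c : ℂ, c ≠ 0 →
      PP s lam t (scl C.w c z) = ‖c‖ ^ (2 * D : ℝ) * PP s lam t z := by
    intro z hz
    obtain ⟨h1, -, -, -, -, -, -, -, -, h10⟩ := epo z hz
    refine ⟨h1, fun c hc => ?_⟩
    rw [(h10 c hc).1, ← Real.rpow_natCast]
    push_cast
    rfl
  have hps1 : ∀ z ∈ C.U, 0 < psi C D s lam t z ∧ ∀ c : ℂ, c ≠ 0 →
      psi C D s lam t (scl C.w c z) = ‖c‖ ^ (1 : ℝ) * psi C D s lam t z := by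
    intro z hz
    obtain ⟨h1, h2⟩ := hP1 z hz
    have h3 : 0 < PP s lam t z / KD C D := div_pos h1 hK
    refine ⟨Real.rpow_pos_of_pos h3 _, fun c hc => ?_⟩
    have hcn : 0 < ‖c‖ := norm_pos_iff.mpr hc
    unfold psi
    rw [h2 c hc, mul_div_assoc, Real.mul_rpow (by positivity) h3.le, ← Real.rpow_mul hcn.le]
    congr 2
    field_simp
  have hfinP := ein_fin C _ hPm hexp
  have hfinps : C.nu {z | z ∈ C.U ∧ psi C D s lam t z < 1} ≠ ⊤ := by
    refine ne_top_of_le_ne_top (hfinP (KD C D)) (measure_mono ?_)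
    rintro z ⟨hz, h⟩
    refine ⟨hz, ?_⟩
    by_contra hcon
    push Not at hcon
    have h1 : 1 ≤ PP s lam t z / KD C D := by
      rw [le_div_iff₀ hK, one_mul]
      exact hcon
    have h2 := Real.one_le_rpow h1 (show (0 : ℝ) ≤ 1 / (2 * D) by positivity)
    exact absurd h (not_lt.mpr h2)
  -- the two densities
  have hW1 : ∀ z, einW C 1 (psi C D s lam t) z = wt C D s lam t z := by
    intro z
    unfold einW Pool.Agent.Helper85.KP.wt
    rw [Real.rpow_one, div_one]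
  have hW2 : ∀ z ∈ C.U, einW C (2 * D) (PP s lam t) z =
      KD C D ^ (-(C.m / (2 * D) : ℝ)) * wt C D s lam t z := by
    intro z hz
    have h1 := (hP1 z hz).1
    have hu := upos z hz
    unfold einW Pool.Agent.Helper85.KP.wt psi
    have e1 : (PP s lam t z / KD C D) ^ ((1 : ℝ) / (2 * D)) =
        PP s lam t z ^ ((1 : ℝ) / (2 * D)) / KD C D ^ ((1 : ℝ) / (2 * D)) :=
      Real.div_rpow h1.le hK.le _
    have e2 : (PP s lam t z ^ ((1 : ℝ) / (2 * D))) ^ (-(C.m : ℝ)) =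
        PP s lam t z ^ (-(C.m / (2 * D) : ℝ)) := by
      rw [← Real.rpow_mul h1.le]
      congr 1
      field_simp
    have e3 : (KD C D ^ ((1 : ℝ) / (2 * D))) ^ (-(C.m : ℝ)) =
        KD C D ^ (-(C.m / (2 * D) : ℝ)) := by
      rw [← Real.rpow_mul hK.le]
      congr 1
      field_simp
    have e4 : (C.u z ^ (2 * D : ℝ)) ^ (-(C.m / (2 * D) : ℝ)) = C.u z ^ (-(C.m : ℝ)) := by
      rw [← Real.rpow_mul hu.le]
      congr 1
      field_simp
    rw [e1, Real.div_rpow h1.le (by positivity), e4, Real.div_rpow (by positivity) hu.le,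
      Real.div_rpow (by positivity) (by positivity), e2, e3]
    have hKp : KD C D ^ (-(C.m / (2 * D) : ℝ)) ≠ 0 := (Real.rpow_pos_of_pos hK _).ne'
    field_simp
  have hS1U : S1 C ⊆ C.U := fun z hz => hz.1
  -- functions of degree zero
  have hF1b : ∀ z ∈ C.U, 0 ≤ F1 s lam t z ∧ F1 s lam t z ≤ L := fun z hz =>
    ⟨(epo z hz).2.2.2.1, (epo z hz).2.2.2.2.1⟩
  have hF2b : ∀ z ∈ C.U, 0 ≤ F2 s lam t z ∧ F2 s lam t z ≤ L ^ 2 := fun z hz =>
    ⟨(epo z hz).2.2.2.2.2.1, (epo z hz).2.2.2.2.2.2.1⟩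
  have hF10 : ∀ z ∈ C.U, ∀ c : ℂ, c ≠ 0 → F1 s lam t (scl C.w c z) = F1 s lam t z :=
    fun z hz c hc => ((epo z hz).2.2.2.2.2.2.2.2.2 c hc).2.1
  have hF20 : ∀ z ∈ C.U, ∀ c : ℂ, c ≠ 0 → F2 s lam t (scl C.w c z) = F2 s lam t z :=
    fun z hz c hc => ((epo z hz).2.2.2.2.2.2.2.2.2 c hc).2.2
  -- main formula for `P`
  have main : ∀ (x : (Fin C.m → ℂ) → ℝ), Measurable x → ∀ B : ℝ,
      (∀ z ∈ C.U, 0 ≤ x z ∧ x z ≤ B) →
      (∀ z ∈ C.U, ∀ c : ℂ, c ≠ 0 → x (scl C.w c z) = x z) → ∀ k : ℕ,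
      IntegrableOn (fun z => x z * wt C D s lam t z) (S1 C) C.nu ∧
      IntegrableOn (fun z => PP s lam t z ^ k * x z * Real.exp (-PP s lam t z) *
        ‖ev C.J z‖ ^ 2) C.U ∧
      ∫ z in C.U, PP s lam t z ^ k * x z * Real.exp (-PP s lam t z) * ‖ev C.J z‖ ^ 2 =
        (C.m / (2 * D) : ℝ) * Real.Gamma (C.m / (2 * D) + k) *
          (KD C D ^ (-(C.m / (2 * D) : ℝ)) * Iw C D s lam t x) := by
    intro x hx B hxB hx0 k
    obtain ⟨-, g2, g3⟩ := ein_gen hSCA hRAD C hC (2 * D) (by positivity) _ hPm hP1 (hfinP 1)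
      x hx B hxB hx0 k
    obtain ⟨g1, -, -⟩ := ein_gen hSCA hRAD C hC 1 one_pos _ hpsm hps1 hfinps x hx B hxB hx0 0
    refine ⟨by simpa only [hW1] using g1, g2, ?_⟩
    rw [g3]
    congr 1
    unfold Iw
    rw [← integral_const_mul]
    have hS1m : MeasurableSet (S1 C) := by
      have h1 : IsOpen (C.U ∩ C.u ⁻¹' Set.Iio 1) :=
        hC.usm.continuousOn.isOpen_inter_preimage (ein_open C) isOpen_Iio
      exact h1.measurableSet
    refine setIntegral_congr_fun hS1m fun z hz => ?_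
    show x z * einW C (2 * D) (PP s lam t) z = _
    rw [hW2 z (hS1U hz)]
    ring
  have hone := main (fun _ => 1) measurable_const 1 (fun z _ => ⟨zero_le_one, le_refl 1⟩)
    (fun z _ c _ => rfl) 0
  have hf1 := main (F1 s lam t) hF1m L hF1b hF10 1
  have hf2 := main (F2 s lam t) hF2m (L ^ 2) hF2b hF20 1
  have hsq : ∀ z ∈ C.U, 0 ≤ F1 s lam t z ^ 2 ∧ F1 s lam t z ^ 2 ≤ L ^ 2 := fun z hz =>
    ⟨sq_nonneg _, pow_le_pow_left₀ (hF1b z hz).1 (hF1b z hz).2 2⟩
  have hsq0 : ∀ z ∈ C.U, ∀ c : ℂ, c ≠ 0 → F1 s lam t (scl C.w c z) ^ 2 = F1 s lam t z ^ 2 :=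
    fun z hz c hc => by rw [hF10 z hz c hc]
  have hff1 := main (fun z => F1 s lam t z ^ 2) (hF1m.pow_const 2) (L ^ 2) hsq hsq0 1
  have hff2 := main (fun z => F1 s lam t z ^ 2) (hF1m.pow_const 2) (L ^ 2) hsq hsq0 2
  -- abbreviations
  have hapos : (0 : ℝ) < C.m / (2 * D) := by positivity
  have hcst : 0 < KD C D ^ (-(C.m / (2 * D) : ℝ)) := Real.rpow_pos_of_pos hK _
  have hG1 : Real.Gamma ((C.m / (2 * D) : ℝ) + 1) =
      (C.m / (2 * D) : ℝ) * Real.Gamma (C.m / (2 * D) : ℝ) := Real.Gamma_add_one hapos.ne'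
  have hG2 : Real.Gamma ((C.m / (2 * D) : ℝ) + 2) = ((C.m / (2 * D) : ℝ) + 1) *
      ((C.m / (2 * D) : ℝ) * Real.Gamma (C.m / (2 * D) : ℝ)) := by
    rw [← hG1, ← Real.Gamma_add_one (by positivity)]
    congr 1
    ring
  have hG0 : 0 < Real.Gamma (C.m / (2 * D) : ℝ) := Real.Gamma_pos_of_pos hapos
  have hZ : C.ZZ s lam t = (C.m / (2 * D) : ℝ) * Real.Gamma (C.m / (2 * D)) *
      (KD C D ^ (-(C.m / (2 * D) : ℝ)) * Iw C D s lam t (fun _ => 1)) := by
    have h := hone.2.2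
    simp only [pow_zero, Nat.cast_zero, add_zero, mul_one, one_mul] at h
    exact h
  have hI : ∫ z in C.U, PPn 1 s lam t z * Real.exp (-PP s lam t z) * ‖ev C.J z‖ ^ 2 =
      (C.m / (2 * D) : ℝ) * ((C.m / (2 * D) : ℝ) * Real.Gamma (C.m / (2 * D) : ℝ)) *
      (KD C D ^ (-(C.m / (2 * D) : ℝ)) * Iw C D s lam t (F1 s lam t)) := by
    rw [← hG1]
    have h := hf1.2.2
    rw [Nat.cast_one] at h
    rw [← h]
    refine setIntegral_congr_fun hUm fun z hz => ?_
    have h1 := (hP1 z hz).1.ne'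
    show PPn 1 s lam t z * Real.exp (-PP s lam t z) * ‖ev C.J z‖ ^ 2 =
      PP s lam t z ^ 1 * (PPn 1 s lam t z / PP s lam t z) * Real.exp (-PP s lam t z) *
        ‖ev C.J z‖ ^ 2
    rw [pow_one, mul_div_cancel₀ _ h1]
  have hI2 : ∫ z in C.U, (PPn 2 s lam t z - PPn 1 s lam t z ^ 2) * Real.exp (-PP s lam t z) *
      ‖ev C.J z‖ ^ 2 =
      (C.m / (2 * D) : ℝ) * ((C.m / (2 * D) : ℝ) * Real.Gamma (C.m / (2 * D) : ℝ)) *
        (KD C D ^ (-(C.m / (2 * D) : ℝ)) * Iw C D s lam t (F2 s lam t)) +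
      (C.m / (2 * D) : ℝ) * ((C.m / (2 * D) : ℝ) * Real.Gamma (C.m / (2 * D) : ℝ)) *
        (KD C D ^ (-(C.m / (2 * D) : ℝ)) * Iw C D s lam t (fun z => F1 s lam t z ^ 2)) -
      (C.m / (2 * D) : ℝ) * (((C.m / (2 * D) : ℝ) + 1) *
        ((C.m / (2 * D) : ℝ) * Real.Gamma (C.m / (2 * D) : ℝ))) *
        (KD C D ^ (-(C.m / (2 * D) : ℝ)) * Iw C D s lam t (fun z => F1 s lam t z ^ 2)) := by
    rw [← hG2, ← hG1]
    have h2 := hf2.2.2
    have h3 := hff1.2.2
    have h4 := hff2.2.2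
    rw [Nat.cast_one] at h2 h3
    rw [Nat.cast_ofNat] at h4
    have hadd : IntegrableOn (fun z => PP s lam t z ^ 1 * F2 s lam t z *
        Real.exp (-PP s lam t z) * ‖ev C.J z‖ ^ 2 + PP s lam t z ^ 1 * F1 s lam t z ^ 2 *
        Real.exp (-PP s lam t z) * ‖ev C.J z‖ ^ 2) C.U := hf2.2.1.add hff1.2.1
    rw [← h2, ← h3, ← h4, ← integral_add hf2.2.1 hff1.2.1, ← integral_sub hadd hff2.2.1]
    refine setIntegral_congr_fun hUm fun z hz => ?_
    have h1 := (hP1 z hz).1.ne'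
    show (PPn 2 s lam t z - PPn 1 s lam t z ^ 2) * Real.exp (-PP s lam t z) * ‖ev C.J z‖ ^ 2 =
      PP s lam t z ^ 1 * (PPn 2 s lam t z / PP s lam t z - (PPn 1 s lam t z / PP s lam t z) ^ 2) *
        Real.exp (-PP s lam t z) * ‖ev C.J z‖ ^ 2 +
      PP s lam t z ^ 1 * (PPn 1 s lam t z / PP s lam t z) ^ 2 * Real.exp (-PP s lam t z) *
        ‖ev C.J z‖ ^ 2 -
      PP s lam t z ^ 2 * (PPn 1 s lam t z / PP s lam t z) ^ 2 * Real.exp (-PP s lam t z) *
        ‖ev C.J z‖ ^ 2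
    field_simp
    ring
  have hA1 : 0 < Iw C D s lam t (fun _ => 1) := by
    rw [hZ] at hZpos
    have h1 : 0 < (C.m / (2 * D) : ℝ) * Real.Gamma (C.m / (2 * D)) := mul_pos hapos hG0
    have h2 := (pos_iff_pos_of_mul_pos hZpos).mp h1
    exact (pos_iff_pos_of_mul_pos h2).mp hcst
  -- the last formulas
  have hxm : Measurable fun z => F2 s lam t z / (2 * D) + (F1 s lam t z / (2 * D)) ^ 2 :=
    (hF2m.div_const _).add ((hF1m.div_const _).pow_const 2)
  have hxb : ∀ z ∈ C.U, 0 ≤ F2 s lam t z / (2 * D) + (F1 s lam t z / (2 * D)) ^ 2 ∧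
      F2 s lam t z / (2 * D) + (F1 s lam t z / (2 * D)) ^ 2 ≤
        L ^ 2 / (2 * D) + (L / (2 * D)) ^ 2 := by
    intro z hz
    obtain ⟨a1, a2⟩ := hF1b z hz
    obtain ⟨b1, b2⟩ := hF2b z hz
    constructor
    · positivity
    · gcongr
  have hx0 : ∀ z ∈ C.U, ∀ c : ℂ, c ≠ 0 →
      F2 s lam t (scl C.w c z) / (2 * D) + (F1 s lam t (scl C.w c z) / (2 * D)) ^ 2 =
        F2 s lam t z / (2 * D) + (F1 s lam t z / (2 * D)) ^ 2 :=
    fun z hz c hc => by rw [hF10 z hz c hc, hF20 z hz c hc]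
  have hlast : IntegrableOn (fun z => psi2 C D s lam t z * Real.exp (-psi C D s lam t z) *
      ‖ev C.J z‖ ^ 2) C.U ∧
      ∫ z in C.U, psi2 C D s lam t z * Real.exp (-psi C D s lam t z) * ‖ev C.J z‖ ^ 2 =
      C.m * C.m.factorial *
        Iw C D s lam t (fun z => F2 s lam t z / (2 * D) + (F1 s lam t z / (2 * D)) ^ 2) := by
    obtain ⟨-, g2, g3⟩ := ein_gen hSCA hRAD C hC 1 one_pos _ hpsm hps1 hfinps _ hxm _ hxb hx0 1
    simp only [hW1, div_one, Nat.cast_one, Real.Gamma_nat_eq_factorial, pow_one] at g2 g3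
    exact ⟨g2, g3⟩
  refine ⟨?_, ?_, hA1, ?_, ?_, ?_, ?_⟩
  · simpa only [one_mul] using hone.1
  · intro z hz
    exact Real.rpow_pos_of_pos (div_pos (hps1 z hz).1 (upos z hz)) _
  · unfold UD
    rw [hI, hZ]
    have h1 := hapos.ne'
    have h2 := hG0.ne'
    have h3 := hcst.ne'
    have h4 := hA1.ne'
    generalize (C.m / (2 * D) : ℝ) = a at *
    field_simp
  · have hd : HasDerivAt (UD C s lam) (((∫ z in C.U, (PPn 2 s lam t z - PPn 1 s lam t z ^ 2) *
        Real.exp (-PP s lam t z) * ‖ev C.J z‖ ^ 2) * C.ZZ s lam t -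
        (∫ z in C.U, PPn 1 s lam t z * Real.exp (-PP s lam t z) * ‖ev C.J z‖ ^ 2) *
        (-∫ z in C.U, PPn 1 s lam t z * Real.exp (-PP s lam t z) * ‖ev C.J z‖ ^ 2)) /
        C.ZZ s lam t ^ 2) t := hdI.div hdZ hZpos.ne'
    refine HasDerivAt.hasDerivWithinAt ?_
    refine hd.congr_deriv ?_
    rw [hI2, hI, hZ]
    unfold U2
    have h1 := hapos.ne'
    have h2 := hG0.ne'
    have h3 := hcst.ne'
    have h4 := hA1.ne'
    generalize (C.m / (2 * D) : ℝ) = a at *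
    field_simp
    ring
  · exact hlast.1
  · exact hlast.2

end Pool.Agent.Helper19.KP
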