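import Pool.Agent.Helper20.KP.StH

set_option autoImplicit false

namespace Pool.Agent.Helper19.KP

open MeasureTheory Filter Pool.Agent.Helper52.KP Pool.Agent.Helper20.KP
open scoped Topology

theorem hrg_form {N : ℕ} (l : (Fin N → ℂ) →ₗ[ℂ] ℂ) :
    ∃ q : MvPolynomial (Fin N) ℂ, ∀ y, MvPolynomial.eval y q = l y := by
  refine ⟨∑ j, MvPolynomial.C (l (Pi.single j 1)) * MvPolynomial.X j, fun y => ?_⟩
  have hy : y = ∑ j, y j • (Pi.single j (1 : ℂ) : Fin N → ℂ) := by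
    ext i
    simp [Finset.sum_apply, Pi.single_apply]
  conv_rhs => rw [hy]
  rw [map_sum, map_sum]
  refine Finset.sum_congr rfl fun j _ => ?_
  rw [map_mul, MvPolynomial.eval_C, MvPolynomial.eval_X, map_smul, smul_eq_mul, mul_comm]

theorem hrg_lin {N m : ℕ} (B : (Fin N → ℂ) →ₗ[ℂ] (Fin m → ℂ)) (P : MvPolynomial (Fin m) ℂ) :
    ∃ q : MvPolynomial (Fin N) ℂ, ∀ y, MvPolynomial.eval y q = MvPolynomial.eval (B y) P := by
  induction P using MvPolynomial.induction_on with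
  | C a => exact ⟨MvPolynomial.C a, fun y => by rw [MvPolynomial.eval_C, MvPolynomial.eval_C]⟩
  | add p p' hp hp' =>
    obtain ⟨q, hq⟩ := hp
    obtain ⟨q', hq'⟩ := hp'
    exact ⟨q + q', fun y => by rw [map_add, map_add, hq, hq']⟩
  | mul_X p i hp =>
    obtain ⟨q, hq⟩ := hp
    obtain ⟨r, hr⟩ := hrg_form ((LinearMap.proj i).comp B)
    exact ⟨q * r, fun y => by
      rw [map_mul, map_mul, hq, hr, MvPolynomial.eval_X]
      rfl⟩

theorem hHRG (hHFX : StHFX) (hHSP : StHSP) (hHLG : StHLG) (hHOC : StHOC) : StHRG := by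
  intro D hD k F hF hFk x hx
  obtain ⟨Y, Dc, rd, hFB⟩ := hHFX D hD
  obtain ⟨⟨l, T, hSL⟩, -⟩ := hHSP D hD Y Dc rd hFB
  have hne : {x | x ∈ D.O ∧ ev (Matrix.of fun i j : Fin rd => T (i + j)).det (Y x) ≠ 0}.Nonempty := by
    have h := hFB.dns _ hSL.det hx
    exact closure_nonempty_iff.mp ⟨x, h⟩
  obtain ⟨x₁, hx₁, hdet⟩ := hne
  obtain ⟨A, hA, hAO⟩ := hD.tr x₁ hx₁ x hx
  obtain ⟨-, -, -, -, -, -, -, -, hcomp⟩ := hHOC D hD
  obtain ⟨hG1, hG2⟩ := hcomp F k hF hFk A hAO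
  obtain ⟨c, hc⟩ := hHLG D hD Y Dc rd hFB l T hSL k (fun x => F (A x)) hG1 hG2
  obtain ⟨q, hq⟩ := hrg_lin (Y.comp A.symm.toLinearMap) (Matrix.of fun i j : Fin rd => T (i + j)).det
  have hci : ∀ i, ∃ r : MvPolynomial (Fin D.N) ℂ, ∀ y, MvPolynomial.eval y r =
    MvPolynomial.eval ((Y.comp A.symm.toLinearMap) y) (c i) := fun i => hrg_lin _ (c i)
  choose r hr using hci
  obtain ⟨s, hs⟩ := hrg_form (l.comp A.symm.toLinearMap)
  refine ⟨∑ i : Fin rd, r i * s ^ (i : ℕ), q, ?_, ?_⟩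
  · rw [hq]
    have : (Y.comp A.symm.toLinearMap) x = Y x₁ := by
      rw [← hA]
      simp
    rw [this]
    exact hdet
  · intro y hy
    have hy' : A.symm y ∈ D.O := by
      rw [← hAO, LinearEquiv.apply_symm_apply]
      exact hy
    have h := hc _ hy'
    simp only [LinearEquiv.apply_symm_apply] at h
    rw [hq, map_sum]
    refine Eq.trans ?_ (h.trans ?_)
    · rfl
    · refine Finset.sum_congr rfl fun i _ => ?_
      rw [map_mul, map_pow, hr, hs]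
      rfl

end Pool.Agent.Helper19.KP
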