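import Pool.Agent.Helper52.KP.StM

set_option autoImplicit false

namespace Pool.Agent.Helper19.KP

open Pool.Agent.Helper52.KP MeasureTheory Filter
open scoped ContDiff ComplexOrder Topology

theorem plr_scale {m : ℕ} (w : Fin m → ℕ) (τ : ℝ) (hτ : 0 < τ) (K : (Fin m → ℂ) → ENNReal)
    (hK : Measurable K) :
    ∫⁻ z, K z = ENNReal.ofReal (τ ^ (2 * ∑ j, w j)) * ∫⁻ z, K (scl w (τ : ℂ) z) := by
  let f : (Fin m → ℂ) →ₗ[ℂ] (Fin m → ℂ) :=
    Matrix.toLin' (Matrix.diagonal fun j => (τ : ℂ) ^ w j)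
  have hf : ∀ z, f z = scl w (τ : ℂ) z := by
    intro z
    ext j
    simp [f, scl, Matrix.mulVec_diagonal]
  have hdet : LinearMap.det (f.restrictScalars ℝ) = τ ^ (2 * ∑ j, w j) := by
    rw [LinearMap.det_restrictScalars, Algebra.norm_complex_apply, LinearMap.det_toLin',
      Matrix.det_diagonal, Finset.prod_pow_eq_pow_sum, map_pow, Complex.normSq_ofReal, pow_mul]
    congr 1
    ring
  have hpos : 0 < τ ^ (2 * ∑ j, w j) := pow_pos hτ _
  have hmap := Measure.map_linearMap_addHaar_eq_smul_addHaar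
    (volume : Measure (Fin m → ℂ)) (f := f.restrictScalars ℝ) (by rw [hdet]; exact hpos.ne')
  have hmeas : Measurable (f.restrictScalars ℝ) :=
    (LinearMap.continuous_of_finiteDimensional _).measurable
  have h1 : ∫⁻ z, K (scl w (τ : ℂ) z) = ∫⁻ z, K z ∂(Measure.map (f.restrictScalars ℝ) volume) := by
    rw [lintegral_map hK hmeas]
    refine lintegral_congr fun z => ?_
    rw [← hf z]
    rfl
  rw [h1, hmap, lintegral_smul_measure, hdet, smul_eq_mul, ← mul_assoc,
    ← ENNReal.ofReal_mul hpos.le, abs_of_pos (inv_pos.mpr hpos), mul_inv_cancel₀ hpos.ne',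
    ENNReal.ofReal_one, one_mul]

theorem plr_log (u : ℝ) (hu : 0 < u) (S : Set ℝ)
    (hS : ∀ τ : ℝ, 0 < τ → (τ ∈ S ↔ τ ≤ u ∧ u < Real.exp 1 * τ)) :
    ∫⁻ τ in Set.Ioi (0 : ℝ), S.indicator (fun _ => (1 : ENNReal)) τ * ENNReal.ofReal (τ⁻¹) = 1 := by
  have he : 0 < Real.exp 1 := Real.exp_pos 1
  have hd : 0 < u / Real.exp 1 := div_pos hu he
  have h1 : ∫⁻ τ in Set.Ioi (0 : ℝ), S.indicator (fun _ => (1 : ENNReal)) τ *
      ENNReal.ofReal (τ⁻¹) =
      ∫⁻ τ in Set.Ioi (0 : ℝ), (Set.Ioc (u / Real.exp 1) u).indicator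
        (fun τ => ENNReal.ofReal (τ⁻¹)) τ := by
    refine setLIntegral_congr_fun measurableSet_Ioi fun τ hτ => ?_
    have hτ' : 0 < τ := hτ
    have hiff : τ ∈ Set.Ioc (u / Real.exp 1) u ↔ τ ∈ S := by
      rw [hS τ hτ', Set.mem_Ioc, div_lt_iff₀ he, mul_comm τ, and_comm]
    by_cases h : τ ∈ S
    · rw [Set.indicator_of_mem h, Set.indicator_of_mem (hiff.mpr h), one_mul]
    · rw [Set.indicator_of_notMem h, Set.indicator_of_notMem (fun h2 => h (hiff.mp h2)), zero_mul]
  have hsub : Set.Ioc (u / Real.exp 1) u ∩ Set.Ioi 0 = Set.Ioc (u / Real.exp 1) u :=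
    Set.inter_eq_left.mpr fun τ hτ => lt_trans hd hτ.1
  rw [h1, setLIntegral_indicator measurableSet_Ioc, hsub]
  have hle : u / Real.exp 1 ≤ u := by
    rw [div_le_iff₀ he]
    nlinarith [Real.add_one_le_exp (1 : ℝ)]
  have hint : IntegrableOn (fun τ : ℝ => τ⁻¹) (Set.Ioc (u / Real.exp 1) u) volume := by
    have hc : ContinuousOn (fun τ : ℝ => τ⁻¹) (Set.Icc (u / Real.exp 1) u) :=
      continuousOn_id.inv₀ fun τ hτ => (lt_of_lt_of_le hd hτ.1).ne'
    exact (hc.integrableOn_compact isCompact_Icc).mono_set Set.Ioc_subset_Icc_self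
  rw [← ofReal_integral_eq_lintegral_ofReal hint]
  · rw [← intervalIntegral.integral_of_le hle, integral_inv_of_pos hd hu]
    have : u / (u / Real.exp 1) = Real.exp 1 := by
      field_simp
    rw [this, Real.log_exp, ENNReal.ofReal_one]
  · rw [EventuallyLE, ae_restrict_iff' measurableSet_Ioc]
    exact Eventually.of_forall fun τ hτ => inv_nonneg.mpr (lt_trans hd hτ.1).le

theorem hPLR : StPLR := by
  intro C hC H hH
  have hm : 0 < C.m := by
    have := hC.hm
    have := hC.hn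
    omega
  have hUo : IsOpen C.U := by
    have hc : Continuous fun z => ev C.Δ z := MvPolynomial.continuous_eval C.Δ
    exact isOpen_ne.preimage hc
  have hUm : MeasurableSet C.U := hUo.measurableSet
  have upos : ∀ z ∈ C.U, 0 < C.u z := by
    intro z hz
    obtain ⟨a, b, ha, hab⟩ := hC.ubd
    exact lt_of_lt_of_le (mul_pos ha (hC.Xpos z hz)) (hab z hz).1
  have hJm : Measurable fun z => ENNReal.ofReal (‖ev C.J z‖ ^ 2) := by
    have hc : Continuous fun z => ev C.J z := MvPolynomial.continuous_eval C.J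
    exact ENNReal.measurable_ofReal.comp (hc.norm.pow 2).measurable
  have hsf : SFinite C.nu := by
    unfold Cone.nu
    infer_instance
  classical
  let v : (Fin C.m → ℂ) → ℝ := C.U.piecewise C.u (fun _ => 1)
  have hvm : Measurable v := hC.usm.continuousOn.measurable_piecewise continuousOn_const hUm
  have hv : ∀ z ∈ C.U, v z = C.u z := fun z hz => Set.piecewise_eq_of_mem _ _ _ hz
  set A : Set (Fin C.m → ℂ) := {z | z ∈ C.U ∧ 1 ≤ C.u z ∧ C.u z < Real.exp 1} with hAdef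
  have hA : MeasurableSet A := by
    have : A = C.U ∩ ({z | 1 ≤ v z} ∩ {z | v z < Real.exp 1}) := by
      ext z
      simp only [hAdef, Set.mem_ofPred_eq, Set.mem_inter_iff]
      refine and_congr_right fun hz => ?_
      rw [hv z hz]
    rw [this]
    exact hUm.inter ((measurableSet_le measurable_const hvm).inter
      (measurableSet_lt hvm measurable_const))
  have hcast : ∀ τ : ℝ, 0 < τ → ((τ : ℂ) ≠ 0 ∧ ‖(τ : ℂ)‖ = τ) := fun τ hτ =>
    ⟨by exact_mod_cast hτ.ne', by rw [Complex.norm_real, Real.norm_of_nonneg hτ.le]⟩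
  have hinv : ∀ τ : ℝ, 0 < τ → ∀ z : Fin C.m → ℂ,
      scl C.w ((τ⁻¹ : ℝ) : ℂ) (scl C.w (τ : ℂ) z) = z := by
    intro τ hτ z
    ext j
    have h0 : (τ : ℂ) ≠ 0 := (hcast τ hτ).1
    simp only [scl]
    rw [← mul_assoc, ← mul_pow, Complex.ofReal_inv, inv_mul_cancel₀ h0, one_pow, one_mul]
  have hinv2 : ∀ τ : ℝ, 0 < τ → ∀ z : Fin C.m → ℂ,
      scl C.w (τ : ℂ) (scl C.w ((τ⁻¹ : ℝ) : ℂ) z) = z := by
    intro τ hτ z
    have := hinv τ⁻¹ (inv_pos.mpr hτ) z
    rwa [inv_inv] at this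
  have hsclU : ∀ τ : ℝ, 0 < τ → ∀ z, scl C.w (τ : ℂ) z ∈ C.U ↔ z ∈ C.U := by
    intro τ hτ z
    constructor
    · intro h
      have := hC.sclU _ (hcast τ⁻¹ (inv_pos.mpr hτ)).1 _ h
      rwa [hinv τ hτ z] at this
    · exact hC.sclU _ (hcast τ hτ).1 z
  -- scaling of the measure
  have hscale : ∀ τ : ℝ, 0 < τ → ∀ K : (Fin C.m → ℂ) → ENNReal, Measurable K →
      ∫⁻ z in C.U, K z ∂C.nu =
        ENNReal.ofReal (τ ^ C.m) * ∫⁻ z in C.U, K (scl C.w (τ : ℂ) z) ∂C.nu := by
    intro τ hτ K hK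
    have hms : Measurable (fun z : Fin C.m → ℂ => scl C.w (τ : ℂ) z) := by
      refine measurable_pi_iff.mpr fun j => ?_
      exact (measurable_pi_apply j).const_mul _
    have hform : ∀ K : (Fin C.m → ℂ) → ENNReal, Measurable K → ∫⁻ z in C.U, K z ∂C.nu =
        ∫⁻ z, C.U.indicator (fun z => ENNReal.ofReal (‖ev C.J z‖ ^ 2) * K z) z := by
      intro K hK
      rw [lintegral_indicator hUm]
      unfold Cone.nu
      rw [restrict_withDensity hUm, lintegral_withDensity_eq_lintegral_mul _ hJm hK]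
      rfl
    have hm1 : Measurable (C.U.indicator (fun z => ENNReal.ofReal (‖ev C.J z‖ ^ 2) * K z)) :=
      (hJm.mul hK).indicator hUm
    rw [hform K hK, hform (fun z => K (scl C.w (τ : ℂ) z)) (hK.comp hms), plr_scale C.w τ hτ _ hm1]
    have hk : ∀ z, C.U.indicator (fun z => ENNReal.ofReal (‖ev C.J z‖ ^ 2) * K z)
        (scl C.w (τ : ℂ) z) = ENNReal.ofReal (τ ^ (2 * C.jd)) *
        C.U.indicator (fun z => ENNReal.ofReal (‖ev C.J z‖ ^ 2) * K (scl C.w (τ : ℂ) z)) z := by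
      intro z
      by_cases hz : z ∈ C.U
      · rw [Set.indicator_of_mem ((hsclU τ hτ z).mpr hz), Set.indicator_of_mem hz, ← mul_assoc,
          ← ENNReal.ofReal_mul (pow_nonneg hτ.le _), hC.Jhom, norm_mul, norm_pow, (hcast τ hτ).2,
          mul_pow, ← pow_mul, mul_comm C.jd 2]
      · rw [Set.indicator_of_notMem (fun h => hz ((hsclU τ hτ z).mp h)),
          Set.indicator_of_notMem hz, mul_zero]
    have hm2 : Measurable (C.U.indicator
        (fun z => ENNReal.ofReal (‖ev C.J z‖ ^ 2) * K (scl C.w (τ : ℂ) z))) :=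
      (hJm.mul (hK.comp hms)).indicator hUm
    simp only [hk]
    rw [lintegral_const_mul _ hm2, ← mul_assoc,
      ← ENNReal.ofReal_mul (pow_nonneg hτ.le _), ← pow_add]
    have : 2 * ∑ j, C.w j + 2 * C.jd = C.m := by
      have h1 := hC.deg
      have h2 := hC.hm
      omega
    rw [this]
  -- joint measurability
  have hsm : ∀ g : ℝ → ℝ, Measurable g →
      Measurable fun p : (Fin C.m → ℂ) × ℝ => scl C.w ((g p.2 : ℝ) : ℂ) p.1 := by
    intro g hg
    refine measurable_pi_iff.mpr fun j => ?_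
    have h1 : Measurable fun p : (Fin C.m → ℂ) × ℝ => ((g p.2 : ℝ) : ℂ) ^ C.w j :=
      (Complex.measurable_ofReal.comp (hg.comp measurable_snd)).pow_const _
    exact h1.mul ((measurable_pi_apply j).comp measurable_fst)
  have hone : Measurable (A.indicator (fun _ => (1 : ENNReal))) := measurable_const.indicator hA
  -- insertion of one
  have hins : ∀ z ∈ C.U, H z = ∫⁻ τ in Set.Ioi (0 : ℝ),
      H z * (A.indicator (fun _ => (1 : ENNReal)) (scl C.w ((τ⁻¹ : ℝ) : ℂ) z) *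
        ENNReal.ofReal (τ⁻¹)) := by
    intro z hz
    have hmz : Measurable fun τ : ℝ =>
        A.indicator (fun _ => (1 : ENNReal)) (scl C.w ((τ⁻¹ : ℝ) : ℂ) z) * ENNReal.ofReal (τ⁻¹) := by
      have h1 : Measurable fun τ : ℝ => scl C.w ((τ⁻¹ : ℝ) : ℂ) z :=
        (hsm (fun τ => τ⁻¹) measurable_inv).comp (measurable_const.prodMk measurable_id)
      exact (hone.comp h1).mul (ENNReal.measurable_ofReal.comp measurable_inv)
    rw [lintegral_const_mul _ hmz]
    have h := plr_log (C.u z) (upos z hz) {τ | scl C.w ((τ⁻¹ : ℝ) : ℂ) z ∈ A} (by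
      intro τ hτ
      have hi := inv_pos.mpr hτ
      have hsU : scl C.w ((τ⁻¹ : ℝ) : ℂ) z ∈ C.U := hC.sclU _ (hcast _ hi).1 z hz
      rw [Set.mem_ofPred_eq, hAdef, Set.mem_ofPred_eq, hC.uhom z hz _ (hcast _ hi).1,
        (hcast _ hi).2]
      constructor
      · rintro ⟨-, h1, h2⟩
        rw [inv_mul_eq_div] at h1 h2
        exact ⟨by rwa [le_div_iff₀ hτ, one_mul] at h1, by rwa [div_lt_iff₀ hτ] at h2⟩
      · rintro ⟨h1, h2⟩
        refine ⟨hsU, ?_, ?_⟩
        · rw [inv_mul_eq_div, le_div_iff₀ hτ, one_mul]; exact h1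
        · rw [inv_mul_eq_div, div_lt_iff₀ hτ]; exact h2)
    have h' : ∫⁻ τ in Set.Ioi (0 : ℝ), A.indicator (fun _ => (1 : ENNReal))
        (scl C.w ((τ⁻¹ : ℝ) : ℂ) z) * ENNReal.ofReal (τ⁻¹) = 1 := by
      exact h
    rw [h', mul_one]
  have hjm : Measurable (Function.uncurry fun (z : Fin C.m → ℂ) (τ : ℝ) =>
      H z * (A.indicator (fun _ => (1 : ENNReal)) (scl C.w ((τ⁻¹ : ℝ) : ℂ) z) *
        ENNReal.ofReal (τ⁻¹))) :=
    (hH.comp measurable_fst).mul ((hone.comp (hsm (fun τ => τ⁻¹) measurable_inv)).mul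
      (ENNReal.measurable_ofReal.comp (measurable_inv.comp measurable_snd)))
  have hjm2 : Measurable (Function.uncurry fun (z : Fin C.m → ℂ) (τ : ℝ) =>
      A.indicator (fun _ => (1 : ENNReal)) z * (H (scl C.w (τ : ℂ) z) *
        ENNReal.ofReal (τ ^ (C.m - 1)))) :=
    (hone.comp measurable_fst).mul ((hH.comp (hsm (fun τ => τ) measurable_id)).mul
      (ENNReal.measurable_ofReal.comp ((measurable_snd).pow_const _)))
  rw [setLIntegral_congr_fun hUm hins, lintegral_lintegral_swap hjm.aemeasurable]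
  -- right side
  have hR : ∫⁻ z in A, (∫⁻ τ in Set.Ioi (0 : ℝ), H (scl C.w (τ : ℂ) z) *
      ENNReal.ofReal (τ ^ (C.m - 1))) ∂C.nu = ∫⁻ z in C.U, (∫⁻ τ in Set.Ioi (0 : ℝ),
      A.indicator (fun _ => (1 : ENNReal)) z * (H (scl C.w (τ : ℂ) z) *
        ENNReal.ofReal (τ ^ (C.m - 1)))) ∂C.nu := by
    have hAU : A ∩ C.U = A := Set.inter_eq_left.mpr fun z hz => hz.1
    conv_lhs => rw [← hAU]
    rw [← setLIntegral_indicator hA]
    refine setLIntegral_congr_fun hUm fun z _ => ?_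
    by_cases h : z ∈ A
    · simp only [Set.indicator_of_mem h, one_mul]
    · simp only [Set.indicator_of_notMem h, zero_mul, lintegral_zero]
  rw [hR, lintegral_lintegral_swap hjm2.aemeasurable]
  refine setLIntegral_congr_fun measurableSet_Ioi fun τ hτ => ?_
  have hτ' : 0 < τ := hτ
  have hK : Measurable fun z : Fin C.m → ℂ =>
      H z * (A.indicator (fun _ => (1 : ENNReal)) (scl C.w ((τ⁻¹ : ℝ) : ℂ) z) *
        ENNReal.ofReal (τ⁻¹)) := hjm.comp (measurable_id.prodMk measurable_const)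
  rw [hscale τ hτ' _ hK, ← lintegral_const_mul]
  · refine setLIntegral_congr_fun hUm fun z _ => ?_
    rw [hinv τ hτ' z]
    have hp : τ ^ (C.m - 1) = τ ^ C.m * τ⁻¹ := by
      rw [← Nat.sub_add_cancel hm, pow_succ, mul_assoc, mul_inv_cancel₀ hτ'.ne', mul_one,
        Nat.sub_add_cancel hm]
    rw [hp, ENNReal.ofReal_mul (pow_nonneg hτ'.le _)]
    ring
  · have hms : Measurable (fun z : Fin C.m → ℂ => scl C.w (τ : ℂ) z) := by
      refine measurable_pi_iff.mpr fun j => ?_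
      exact (measurable_pi_apply j).const_mul _
    exact hK.comp hms

end Pool.Agent.Helper19.KP
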