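import Pool.Agent.Helper52.KP.StM

set_option autoImplicit false

namespace Pool.Agent.Helper19.KP

open Pool.Agent.Helper52.KP MeasureTheory Filter
open scoped ContDiff ComplexOrder Topology

theorem rad_pow (m : ℕ) (hm : 0 < m) (a : ℝ) (ha : 0 < a) (S : Set ℝ)
    (hS : ∀ τ : ℝ, 0 < τ → (τ ∈ S ↔ τ < a)) (G : ENNReal) :
    ∫⁻ τ in Set.Ioi (0 : ℝ), S.indicator (fun _ => G) τ * ENNReal.ofReal (τ ^ (m - 1)) =
      G * ENNReal.ofReal (a ^ m / m) := by
  have h1 : ∫⁻ τ in Set.Ioi (0 : ℝ), S.indicator (fun _ => G) τ * ENNReal.ofReal (τ ^ (m - 1)) =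
      ∫⁻ τ in Set.Ioi (0 : ℝ), (Set.Iio a).indicator
        (fun τ => G * ENNReal.ofReal (τ ^ (m - 1))) τ := by
    refine setLIntegral_congr_fun measurableSet_Ioi fun τ hτ => ?_
    by_cases h : τ < a
    · simp [Set.indicator_of_mem ((hS τ hτ).mpr h), Set.indicator_of_mem (Set.mem_Iio.mpr h)]
    · have h2 : τ ∉ S := fun h3 => h ((hS τ hτ).mp h3)
      have h3 : τ ∉ Set.Iio a := h
      simp [Set.indicator_of_notMem h2, Set.indicator_of_notMem h3]
  rw [h1, setLIntegral_indicator measurableSet_Iio, Set.Iio_inter_Ioi,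
    lintegral_const_mul _ (by fun_prop)]
  congr 1
  have hint : IntegrableOn (fun τ : ℝ => τ ^ (m - 1)) (Set.Ioo 0 a) volume :=
    ((continuous_pow (m - 1)).continuousOn.integrableOn_compact isCompact_Icc).mono_set
      Set.Ioo_subset_Icc_self
  rw [← ofReal_integral_eq_lintegral_ofReal hint]
  · congr 1
    rw [← integral_Ioc_eq_integral_Ioo, ← intervalIntegral.integral_of_le ha.le, integral_pow,
      Nat.sub_add_cancel hm]
    have : ((m - 1 : ℕ) : ℝ) + 1 = m := by exact_mod_cast Nat.sub_add_cancel hm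
    rw [this, zero_pow hm.ne', sub_zero]
  · rw [EventuallyLE, ae_restrict_iff' measurableSet_Ioo]
    exact Eventually.of_forall fun τ hτ => pow_nonneg hτ.1.le _

theorem hRAD (hplr : StPLR) : StRAD := by
  intro C hC D hD ψ g hψ hg hh
  have hm : 0 < C.m := by
    have := hC.hm
    have := hC.hn
    omega
  have hUo : IsOpen C.U := by
    have hc : Continuous fun z => ev C.Δ z := MvPolynomial.continuous_eval C.Δ
    exact isOpen_ne.preimage hc
  have hUm : MeasurableSet C.U := hUo.measurableSet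
  have upos : ∀ z ∈ C.U, 0 < C.u z := by
    intro z hz
    obtain ⟨a, b, ha, hab⟩ := hC.ubd
    exact lt_of_lt_of_le (mul_pos ha (hC.Xpos z hz)) (hab z hz).1
  classical
  -- a measurable version of `u`
  let v : (Fin C.m → ℂ) → ℝ := C.U.piecewise C.u (fun _ => 1)
  have hvm : Measurable v := hC.usm.continuousOn.measurable_piecewise continuousOn_const hUm
  have hv : ∀ z ∈ C.U, v z = C.u z := fun z hz => Set.piecewise_eq_of_mem _ _ _ hz
  have hA : MeasurableSet {z | z ∈ C.U ∧ 1 ≤ C.u z ∧ C.u z < Real.exp 1} := by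
    have : {z | z ∈ C.U ∧ 1 ≤ C.u z ∧ C.u z < Real.exp 1} =
        C.U ∩ ({z | 1 ≤ v z} ∩ {z | v z < Real.exp 1}) := by
      ext z
      simp only [Set.mem_ofPred_eq, Set.mem_inter_iff]
      refine and_congr_right fun hz => ?_
      rw [hv z hz]
    rw [this]
    exact hUm.inter ((measurableSet_le measurable_const hvm).inter
      (measurableSet_lt hvm measurable_const))
  have hL : ∫⁻ z in {z | z ∈ C.U ∧ ψ z < 1}, g z ∂C.nu =
      ∫⁻ z in C.U, {z | ψ z < 1}.indicator g z ∂C.nu := by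
    rw [setLIntegral_indicator (measurableSet_lt hψ measurable_const), Set.inter_comm]
    rfl
  have hR : ∫⁻ z in {z | z ∈ C.U ∧ C.u z < 1},
      g z * ENNReal.ofReal ((ψ z / C.u z ^ D) ^ (-(C.m / D : ℝ))) ∂C.nu =
      ∫⁻ z in C.U, {z | v z < 1}.indicator
        (fun z => g z * ENNReal.ofReal ((ψ z / v z ^ D) ^ (-(C.m / D : ℝ)))) z ∂C.nu := by
    have hs : {z | z ∈ C.U ∧ C.u z < 1} = {z | v z < 1} ∩ C.U := by
      ext z
      simp only [Set.mem_ofPred_eq, Set.mem_inter_iff]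
      constructor
      · rintro ⟨h1, h2⟩
        exact ⟨by rwa [hv z h1], h1⟩
      · rintro ⟨h1, h2⟩
        exact ⟨h2, by rwa [hv z h2] at h1⟩
    rw [setLIntegral_indicator (measurableSet_lt hvm measurable_const), hs]
    refine setLIntegral_congr_fun ((measurableSet_lt hvm measurable_const).inter hUm) ?_
    intro z hz
    simp only
    rw [hv z hz.2]
  rw [hL, hR, hplr C hC _ (hg.indicator (measurableSet_lt hψ measurable_const)),
    hplr C hC _ (Measurable.indicator (by fun_prop) (measurableSet_lt hvm measurable_const))]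
  refine setLIntegral_congr_fun hA fun z hz => ?_
  obtain ⟨hzU, -, -⟩ := hz
  have hψ0 : 0 < ψ z := (hh z hzU).1
  have hu0 : 0 < C.u z := upos z hzU
  have hcast : ∀ τ : ℝ, 0 < τ → ((τ : ℂ) ≠ 0 ∧ ‖(τ : ℂ)‖ = τ) := fun τ hτ =>
    ⟨by exact_mod_cast hτ.ne', by rw [Complex.norm_real, Real.norm_of_nonneg hτ.le]⟩
  -- left inner integral
  have h1 : ∫⁻ τ in Set.Ioi (0 : ℝ), {z | ψ z < 1}.indicator g (scl C.w (τ : ℂ) z) *
      ENNReal.ofReal (τ ^ (C.m - 1)) =
      g z * ENNReal.ofReal ((ψ z ^ (-(1 / D : ℝ))) ^ C.m / C.m) := by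
    rw [← rad_pow C.m hm (ψ z ^ (-(1 / D : ℝ))) (Real.rpow_pos_of_pos hψ0 _)
      {τ | τ ^ D * ψ z < 1} ?_ (g z)]
    · refine setLIntegral_congr_fun measurableSet_Ioi fun τ hτ => ?_
      have hτ' : 0 < τ := hτ
      obtain ⟨hc0, hcn⟩ := hcast τ hτ'
      obtain ⟨e1, e2⟩ := (hh z hzU).2 (τ : ℂ) hc0
      rw [hcn] at e1
      congr 1
      by_cases h : τ ^ D * ψ z < 1
      · rw [Set.indicator_of_mem (show scl C.w (τ : ℂ) z ∈ {z | ψ z < 1} by
          rw [Set.mem_ofPred_eq, e1]; exact h), Set.indicator_of_mem (Set.mem_ofPred_eq ▸ h), e2]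
      · rw [Set.indicator_of_notMem (show scl C.w (τ : ℂ) z ∉ {z | ψ z < 1} by
          rw [Set.mem_ofPred_eq, e1]; exact h),
          Set.indicator_of_notMem (show τ ∉ {τ : ℝ | τ ^ D * ψ z < 1} from h)]
    · intro τ hτ
      rw [Set.mem_ofPred_eq]
      have e : (ψ z ^ (-(1 / D : ℝ))) ^ D = (ψ z)⁻¹ := by
        rw [← Real.rpow_mul hψ0.le, ← Real.rpow_neg_one]
        congr 1
        field_simp
      rw [← Real.rpow_lt_rpow_iff hτ.le (Real.rpow_nonneg hψ0.le _) hD, e,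
        ← lt_div_iff₀ hψ0, one_div]
  have h2 : ∫⁻ τ in Set.Ioi (0 : ℝ), {z | v z < 1}.indicator
      (fun z => g z * ENNReal.ofReal ((ψ z / v z ^ D) ^ (-(C.m / D : ℝ)))) (scl C.w (τ : ℂ) z) *
      ENNReal.ofReal (τ ^ (C.m - 1)) =
      g z * ENNReal.ofReal ((ψ z / C.u z ^ D) ^ (-(C.m / D : ℝ))) *
        ENNReal.ofReal ((1 / C.u z) ^ C.m / C.m) := by
    rw [← rad_pow C.m hm (1 / C.u z) (by positivity) {τ | τ * C.u z < 1} ?_
      (g z * ENNReal.ofReal ((ψ z / C.u z ^ D) ^ (-(C.m / D : ℝ))))]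
    · refine setLIntegral_congr_fun measurableSet_Ioi fun τ hτ => ?_
      have hτ' : 0 < τ := hτ
      obtain ⟨hc0, hcn⟩ := hcast τ hτ'
      obtain ⟨e1, e2⟩ := (hh z hzU).2 (τ : ℂ) hc0
      rw [hcn] at e1
      have hsU := hC.sclU (τ : ℂ) hc0 z hzU
      have e3 : v (scl C.w (τ : ℂ) z) = τ * C.u z := by
        rw [hv _ hsU, hC.uhom z hzU _ hc0, hcn]
      have e4 : ψ (scl C.w (τ : ℂ) z) / v (scl C.w (τ : ℂ) z) ^ D = ψ z / C.u z ^ D := by
        rw [e1, e3, Real.mul_rpow hτ'.le hu0.le,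
          mul_div_mul_left _ _ (Real.rpow_pos_of_pos hτ' D).ne']
      congr 1
      by_cases h : τ * C.u z < 1
      · rw [Set.indicator_of_mem (show scl C.w (τ : ℂ) z ∈ {z | v z < 1} by
          rw [Set.mem_ofPred_eq, e3]; exact h),
          Set.indicator_of_mem (show τ ∈ {τ : ℝ | τ * C.u z < 1} from h), e2, e4]
      · rw [Set.indicator_of_notMem (show scl C.w (τ : ℂ) z ∉ {z | v z < 1} by
          rw [Set.mem_ofPred_eq, e3]; exact h),
          Set.indicator_of_notMem (show τ ∉ {τ : ℝ | τ * C.u z < 1} from h)]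
    · intro τ _
      rw [Set.mem_ofPred_eq, lt_div_iff₀ hu0]
  rw [h1, h2, mul_assoc, ← ENNReal.ofReal_mul (Real.rpow_nonneg (by positivity) _)]
  congr 2
  rw [← mul_div_assoc]
  congr 1
  have e5 : D * -(C.m / D : ℝ) = -(C.m : ℝ) := by field_simp
  have e6 : -(1 / D : ℝ) * C.m = -(C.m / D : ℝ) := by ring
  have e7 : (ψ z ^ (-(1 / D : ℝ))) ^ C.m = ψ z ^ (-(C.m / D : ℝ)) := by
    rw [← Real.rpow_natCast, ← Real.rpow_mul hψ0.le, e6]
  have e8 : (1 / C.u z) ^ C.m = (C.u z ^ (C.m : ℝ))⁻¹ := by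
    rw [one_div, inv_pow, Real.rpow_natCast]
  have e9 : (C.u z ^ D) ^ (-(C.m / D : ℝ)) = (C.u z ^ (C.m : ℝ))⁻¹ := by
    rw [← Real.rpow_mul hu0.le, e5, Real.rpow_neg hu0.le]
  rw [Real.div_rpow hψ0.le (Real.rpow_nonneg hu0.le _), e7, e8, e9, div_inv_eq_mul, mul_assoc,
    mul_inv_cancel₀ (Real.rpow_pos_of_pos hu0 _).ne', mul_one]

end Pool.Agent.Helper19.KP
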