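import Pool.Agent.Helper52.KP.StW

set_option autoImplicit false

namespace Pool.Agent.Helper19.KP

open Pool.Agent.Helper52.KP MeasureTheory Filter
open scoped ContDiff ComplexOrder Topology

variable {m : ℕ}

/-! ### Jacobi formula -/

theorem stk_jac (A B : Matrix (Fin m) (Fin m) ℂ) (s : ℝ) :
    HasDerivAt (fun s : ℝ => (A + (s : ℂ) • B).det)
      (∑ j, ∑ k, (A + (s : ℂ) • B).adjugate k j * B j k) s := by
  have he : ∀ i j, HasDerivAt (fun s : ℝ => (A + (s : ℂ) • B) i j) (B i j) s := by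
    intro i j
    have h1 : HasDerivAt (fun s : ℝ => (s : ℂ)) 1 s := Complex.ofRealCLM.hasDerivAt
    have h2 := (h1.mul_const (B i j)).const_add (A i j)
    simpa using h2
  have hdet : HasDerivAt (fun s : ℝ => (A + (s : ℂ) • B).det)
      (∑ σ : Equiv.Perm (Fin m), Equiv.Perm.sign σ • ∑ i, (∏ j ∈ Finset.univ.erase i,
        (A + (s : ℂ) • B) (σ j) j) • B (σ i) i) s := by
    simp only [Matrix.det_apply]
    refine HasDerivAt.fun_sum fun σ _ => ?_
    have h := HasDerivAt.fun_finsetProd (u := Finset.univ) (x := s)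
      (f := fun i (s : ℝ) => (A + (s : ℂ) • B) (σ i) i) (f' := fun i => B (σ i) i)
      (fun i _ => he (σ i) i)
    exact h.const_smul (Equiv.Perm.sign σ)
  convert hdet using 1
  generalize A + (s : ℂ) • B = M
  rw [Finset.sum_comm]
  have hk : ∀ k, ∑ j, M.adjugate k j * B j k = (M.updateCol k (fun j => B j k)).det := by
    intro k
    rw [← Matrix.cramer_apply, Matrix.cramer_eq_adjugate_mulVec]
    rfl
  simp only [hk, Matrix.det_apply]
  rw [Finset.sum_comm]
  refine Finset.sum_congr rfl fun σ _ => ?_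
  rw [Finset.smul_sum]
  refine Finset.sum_congr rfl fun k _ => ?_
  congr 1
  rw [← Finset.mul_prod_erase Finset.univ _ (Finset.mem_univ k), smul_eq_mul, mul_comm]
  congr 1
  · refine Finset.prod_congr rfl fun j hj => ?_
    rw [Matrix.updateCol_apply, if_neg (Finset.ne_of_mem_erase hj)]
  · rw [Matrix.updateCol_apply, if_pos rfl]

theorem stk_ftc (A B : Matrix (Fin m) (Fin m) ℂ) :
    ∫ s in (0 : ℝ)..1, ∑ j, ∑ k, (A + (s : ℂ) • B).adjugate k j * B j k =
      (A + B).det - A.det := by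
  have hcM : Continuous fun s : ℝ => (A + (s : ℂ) • B).adjugate :=
    (continuous_const.add (Complex.continuous_ofReal.smul continuous_const)).matrix_adjugate
  have hc : Continuous fun s : ℝ => ∑ j, ∑ k, (A + (s : ℂ) • B).adjugate k j * B j k :=
    continuous_finsetSum _ fun j _ => continuous_finsetSum _ fun k _ =>
      (hcM.matrix_elem k j).mul continuous_const
  have h := intervalIntegral.integral_eq_sub_of_hasDerivAt
    (f := fun s : ℝ => (A + (s : ℂ) • B).det)
    (f' := fun s : ℝ => ∑ j, ∑ k, (A + (s : ℂ) • B).adjugate k j * B j k)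
    (a := 0) (b := 1) (fun s _ => stk_jac A B s) (hc.intervalIntegrable 0 1)
  rw [h]
  simp

/-! ### Calculus -/

theorem stk_dz_lin (j : Fin m) (f g : (Fin m → ℂ) → ℂ) (c : ℂ) (z : Fin m → ℂ)
    (hf : DifferentiableAt ℝ f z) (hg : DifferentiableAt ℝ g z) :
    dz j (fun w => f w + c * g w) z = dz j f z + c * dz j g z := by
  have h : fderiv ℝ (fun w => f w + c * g w) z = fderiv ℝ f z + c • fderiv ℝ g z := by
    rw [fderiv_fun_add hf (hg.const_mul c), fderiv_const_mul hg]
  unfold dz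
  rw [h]
  simp only [add_apply, smul_apply, smul_eq_mul]
  ring

theorem stk_db_lin (j : Fin m) (f g : (Fin m → ℂ) → ℂ) (c : ℂ) (z : Fin m → ℂ)
    (hf : DifferentiableAt ℝ f z) (hg : DifferentiableAt ℝ g z) :
    db j (fun w => f w + c * g w) z = db j f z + c * db j g z := by
  have h : fderiv ℝ (fun w => f w + c * g w) z = fderiv ℝ f z + c • fderiv ℝ g z := by
    rw [fderiv_fun_add hf (hg.const_mul c), fderiv_const_mul hg]
  unfold db
  rw [h]
  simp only [add_apply, smul_apply, smul_eq_mul]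
  ring

theorem stk_dz_congr (j : Fin m) (f g : (Fin m → ℂ) → ℂ) (z : Fin m → ℂ) (h : f =ᶠ[𝓝 z] g) :
    dz j f z = dz j g z := by
  unfold dz
  rw [h.fderiv_eq]

theorem stk_db_congr (j : Fin m) (f g : (Fin m → ℂ) → ℂ) (z : Fin m → ℂ) (h : f =ᶠ[𝓝 z] g) :
    db j f z = db j g z := by
  unfold db
  rw [h.fderiv_eq]

theorem stk_dz_const (j : Fin m) (c : ℂ) (z : Fin m → ℂ) : dz j (fun _ => c) z = 0 := by
  unfold dz
  simp

theorem stk_db_const (j : Fin m) (c : ℂ) (z : Fin m → ℂ) : db j (fun _ => c) z = 0 := by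
  unfold db
  simp

theorem stk_cdz {U : Set (Fin m → ℂ)} (hU : IsOpen U) (j : Fin m) (f : (Fin m → ℂ) → ℂ)
    (hf : ContDiffOn ℝ ∞ f U) : ContDiffOn ℝ ∞ (dz j f) U := by
  have h : ContDiffOn ℝ ∞ (fderiv ℝ f) U := hf.fderiv_of_isOpen hU (by simp)
  have h1 := h.clm_apply (contDiffOn_const (c := (Pi.single j 1 : Fin m → ℂ)))
  have h2 := h.clm_apply (contDiffOn_const (c := (Pi.single j Complex.I : Fin m → ℂ)))
  exact (h1.sub (contDiffOn_const.mul h2)).div_const 2

theorem stk_cdb {U : Set (Fin m → ℂ)} (hU : IsOpen U) (j : Fin m) (f : (Fin m → ℂ) → ℂ)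
    (hf : ContDiffOn ℝ ∞ f U) : ContDiffOn ℝ ∞ (db j f) U := by
  have h : ContDiffOn ℝ ∞ (fderiv ℝ f) U := hf.fderiv_of_isOpen hU (by simp)
  have h1 := h.clm_apply (contDiffOn_const (c := (Pi.single j 1 : Fin m → ℂ)))
  have h2 := h.clm_apply (contDiffOn_const (c := (Pi.single j Complex.I : Fin m → ℂ)))
  exact (h1.add (contDiffOn_const.mul h2)).div_const 2

theorem stk_cf {U : Set (Fin m → ℂ)} (a : (Fin m → ℂ) → ℝ) (ha : ContDiffOn ℝ ∞ a U) :
    ContDiffOn ℝ ∞ (cf a) U := Complex.ofRealCLM.contDiff.comp_contDiffOn ha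

theorem stk_hes_cont {U : Set (Fin m → ℂ)} (hU : IsOpen U) (a : (Fin m → ℂ) → ℝ)
    (ha : ContDiffOn ℝ ∞ a U) : ContinuousOn (hes a) U := by
  have h : ∀ j k, ContinuousOn (fun z => hes a z j k) U := fun j k =>
    (stk_cdz hU j _ (stk_cdb hU k _ (stk_cf a ha))).continuousOn
  exact continuousOn_pi.mpr fun j => continuousOn_pi.mpr fun k => h j k

theorem stk_hes_lin {U : Set (Fin m → ℂ)} (hU : IsOpen U) (a φ : (Fin m → ℂ) → ℝ)
    (ha : ContDiffOn ℝ ∞ a U) (hφ : ContDiff ℝ ∞ φ) (s : ℝ) (z : Fin m → ℂ) (hz : z ∈ U) :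
    hes (fun z => a z + s * φ z) z = hes a z + (s : ℂ) • hes φ z := by
  have hca := stk_cf a ha
  have hcφ : ContDiffOn ℝ ∞ (cf φ) U := stk_cf φ hφ.contDiffOn
  have dif : ∀ (f : (Fin m → ℂ) → ℂ), ContDiffOn ℝ ∞ f U → ∀ w ∈ U, DifferentiableAt ℝ f w :=
    fun f hf w hw => (hf.contDiffAt (hU.mem_nhds hw)).differentiableAt (by simp)
  ext j k
  show dz j (db k (cf fun z => a z + s * φ z)) z
    = dz j (db k (cf a)) z + (s : ℂ) * dz j (db k (cf φ)) z
  have hcf : cf (fun z => a z + s * φ z) = fun w => cf a w + (s : ℂ) * cf φ w := by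
    funext w
    simp [cf]
  have e : db k (cf fun z => a z + s * φ z) =ᶠ[𝓝 z]
      fun w => db k (cf a) w + (s : ℂ) * db k (cf φ) w := by
    filter_upwards [hU.mem_nhds hz] with w hw
    rw [hcf, stk_db_lin k _ _ _ w (dif _ hca w hw) (dif _ hcφ w hw)]
  rw [stk_dz_congr j _ _ z e, stk_dz_lin j _ _ _ z (dif _ (stk_cdb hU k _ hca) z hz)
    (dif _ (stk_cdb hU k _ hcφ) z hz)]

theorem stk_off (φ : (Fin m → ℂ) → ℝ) (z : Fin m → ℂ) (hz : z ∉ tsupport φ) :
    (∀ j, dz j (cf φ) z = 0) ∧ hes φ z = 0 := by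
  have hev : ∀ᶠ w in 𝓝 z, w ∉ tsupport φ :=
    (isClosed_tsupport φ).isOpen_compl.mem_nhds hz
  have h0 : ∀ w, w ∉ tsupport φ → cf φ =ᶠ[𝓝 w] fun _ => 0 := by
    intro w hw
    filter_upwards [(isClosed_tsupport φ).isOpen_compl.mem_nhds hw] with y hy
    simp [cf, image_eq_zero_of_notMem_tsupport hy]
  refine ⟨fun j => ?_, ?_⟩
  · rw [stk_dz_congr j _ _ z (h0 z hz), stk_dz_const]
  · ext j k
    show dz j (db k (cf φ)) z = 0
    have e : db k (cf φ) =ᶠ[𝓝 z] fun _ => 0 := by
      filter_upwards [hev] with w hw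
      rw [stk_db_congr k _ _ w (h0 w hw), stk_db_const]
    rw [stk_dz_congr j _ _ z e, stk_dz_const]

/-- a cutoff function -/
theorem stk_cut {K U : Set (Fin m → ℂ)} (hK : IsCompact K) (hU : IsOpen U) (hKU : K ⊆ U) :
    ∃ F : (Fin m → ℂ) → ℝ, ContDiff ℝ ∞ F ∧ HasCompactSupport F ∧ tsupport F ⊆ U ∧
      ∀ z ∈ K, F =ᶠ[𝓝 z] fun _ => 1 := by
  obtain ⟨L, hL, hKL, hLU⟩ := exists_compact_between hK hU hKU
  obtain ⟨f, h1, h0, -⟩ := exists_contMDiffMap_one_nhds_of_subset_interior
    (modelWithCornersSelf ℝ (Fin m → ℂ)) (n := ⊤) hK.isClosed hKL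
  have hsub : tsupport f ⊆ L := by
    refine closure_minimal (fun x hx => ?_) hL.isClosed
    by_contra hxL
    exact hx (h0 x hxL)
  refine ⟨f, f.contMDiff.contDiff, hL.of_isClosed_subset (isClosed_tsupport _) hsub,
    hsub.trans hLU, fun z hz => ?_⟩
  exact (eventually_nhdsSet_iff_forall.mp h1) z hz

theorem hSTK (hdiv : StDIV) : StSTK := by
  intro m U hU a φ ha hφ hc hs
  set K := tsupport φ with hKdef
  have hK : IsCompact K := hc
  let g : ℝ → (Fin m → ℂ) → ℂ := fun s z =>
    ∑ j, ∑ k, (hes a z + (s : ℂ) • hes φ z).adjugate k j * hes φ z j k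
  have hg0 : ∀ s z, z ∉ K → g s z = 0 := by
    intro s z hz
    simp [g, (stk_off φ z hz).2]
  -- continuity
  have hφc : Continuous (hes φ) := by
    rw [← continuousOn_univ]
    exact stk_hes_cont isOpen_univ φ hφ.contDiffOn
  have hgc : Continuous (Function.uncurry g) := by
    rw [continuous_iff_continuousAt]
    rintro ⟨s, z⟩
    by_cases hz : z ∈ K
    · have hzU : z ∈ U := hs hz
      have hca : ContinuousAt (fun p : ℝ × (Fin m → ℂ) => hes a p.2) (s, z) :=
        ContinuousAt.comp (g := hes a) (f := fun p : ℝ × (Fin m → ℂ) => p.2)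
          (x := ((s, z) : ℝ × (Fin m → ℂ)))
          ((stk_hes_cont hU a ha).continuousAt (hU.mem_nhds hzU)) continuousAt_snd
      have hcφ : ContinuousAt (fun p : ℝ × (Fin m → ℂ) => hes φ p.2) (s, z) :=
        (hφc.comp continuous_snd).continuousAt
      have hcs : ContinuousAt (fun p : ℝ × (Fin m → ℂ) => (p.1 : ℂ)) (s, z) :=
        (Complex.continuous_ofReal.comp continuous_fst).continuousAt
      have hM : ContinuousAt (fun p : ℝ × (Fin m → ℂ) =>
          (hes a p.2 + (p.1 : ℂ) • hes φ p.2).adjugate) (s, z) :=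
        ContinuousAt.comp (g := fun M : Matrix (Fin m) (Fin m) ℂ => M.adjugate)
          (continuous_id.matrix_adjugate).continuousAt (hca.add (hcs.smul hcφ))
      show ContinuousAt (fun p : ℝ × (Fin m → ℂ) =>
        ∑ j, ∑ k, (hes a p.2 + (p.1 : ℂ) • hes φ p.2).adjugate k j * hes φ p.2 j k) (s, z)
      refine tendsto_finsetSum _ fun j _ => tendsto_finsetSum _ fun k _ => ?_
      exact Tendsto.mul (((continuous_apply_apply k j).continuousAt.tendsto).comp hM)
        (((continuous_apply_apply j k).continuousAt.tendsto).comp hcφ)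
    · have he : Function.uncurry g =ᶠ[𝓝 (s, z)] fun _ => 0 := by
        have : (Prod.snd ⁻¹' Kᶜ : Set (ℝ × (Fin m → ℂ))) ∈ 𝓝 (s, z) :=
          continuousAt_snd ((isClosed_tsupport φ).isOpen_compl.mem_nhds hz)
        filter_upwards [this] with p hp
        exact hg0 p.1 p.2 hp
      exact he.continuousAt
  -- integrability
  have hgi : Integrable (Function.uncurry g)
      ((volume.restrict (Set.Ioc (0 : ℝ) 1)).prod (volume.restrict U)) := by
    rw [Measure.prod_restrict]
    have h1 : IntegrableOn (Function.uncurry g) (Set.Icc (0 : ℝ) 1 ×ˢ K)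
        ((volume : Measure ℝ).prod (volume : Measure (Fin m → ℂ))) :=
      hgc.continuousOn.integrableOn_compact (isCompact_Icc.prod hK)
    have h2 : IntegrableOn (Function.uncurry g) (Set.Icc (0 : ℝ) 1 ×ˢ Set.univ)
        ((volume : Measure ℝ).prod (volume : Measure (Fin m → ℂ))) := by
      refine h1.of_forall_sdiff_eq_zero (measurableSet_Icc.prod MeasurableSet.univ) ?_
      rintro ⟨s, z⟩ ⟨hx, hx'⟩
      apply hg0
      intro hz
      exact hx' ⟨hx.1, hz⟩
    exact h2.mono_set (Set.prod_mono Set.Ioc_subset_Icc_self (Set.subset_univ _))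
  -- each slice has integral zero
  obtain ⟨F, hF, hFc, hFs, hF1⟩ := stk_cut hK hU hs
  have hslice : ∀ s : ℝ, ∫ z in U, g s z = 0 := by
    intro s
    have hu : ContDiffOn ℝ ∞ (fun z => a z + s * φ z) U :=
      ha.add (contDiffOn_const.mul hφ.contDiffOn)
    have h := hdiv m U hU (fun z => a z + s * φ z) φ F hu hφ.contDiffOn hF hFc hFs
    have hL : ∫ z in U, g s z = ∫ z in U, (F z : ℂ) * ∑ j, ∑ k,
        (hes (fun z => a z + s * φ z) z).adjugate k j * hes φ z j k := by
      refine setIntegral_congr_fun hU.measurableSet fun z hz => ?_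
      rw [stk_hes_lin hU a φ ha hφ s z hz]
      by_cases hzK : z ∈ K
      · rw [(hF1 z hzK).self_of_nhds]
        simp [g]
      · simp [g, (stk_off φ z hzK).2]
    have hR : ∫ z in U, ∑ j, ∑ k, (hes (fun z => a z + s * φ z) z).adjugate k j *
        dz j (cf φ) z * db k (cf F) z = 0 := by
      rw [← integral_zero (Fin m → ℂ) ℂ (μ := volume.restrict U)]
      refine integral_congr_ae (Eventually.of_forall fun z => ?_)
      refine Finset.sum_eq_zero fun j _ => Finset.sum_eq_zero fun k _ => ?_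
      by_cases hzK : z ∈ K
      · have : db k (cf F) z = 0 := by
          have he : cf F =ᶠ[𝓝 z] fun _ => 1 := by
            filter_upwards [hF1 z hzK] with w hw
            simp [cf, hw]
          rw [stk_db_congr k _ _ z he, stk_db_const]
        rw [this, mul_zero]
      · rw [(stk_off φ z hzK).1 j, mul_zero, zero_mul]
    rw [hL, h, hR, neg_zero]
  -- fundamental theorem of calculus
  have hftc : ∀ z ∈ U, (hes (fun z => a z + φ z) z).det - (hes a z).det =
      ∫ s in Set.Ioc (0 : ℝ) 1, g s z := by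
    intro z hz
    have h1 : ∫ s in (0 : ℝ)..1, g s z = (hes a z + hes φ z).det - (hes a z).det :=
      stk_ftc (hes a z) (hes φ z)
    rw [← intervalIntegral.integral_of_le zero_le_one, h1]
    have h2 := stk_hes_lin hU a φ ha hφ 1 z hz
    simp only [one_mul, Complex.ofReal_one, one_smul] at h2
    rw [h2]
  rw [setIntegral_congr_fun hU.measurableSet hftc]
  rw [← integral_integral_swap hgi]
  simp [hslice]

end Pool.Agent.Helper19.KP
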